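import Mathlib
import Pool.Agent.U344.OPN.Final

/-!
# Common prime factors of the exponents (plus one) of an odd perfect number

Let `N` be an odd perfect number and `l` a prime, not the Euler prime of `N`, which divides
`v_q(N) + 1` for all the primes `q ∣ N` with `v_q(N)` even.  Then `l ^ 178 ∣ N`.  In particular
an odd perfect number `p ^ α * m ^ (2 β)`, `p` prime and `m` squarefree, has `β ≥ 89`.

If `q ≠ p` is a prime factor of `N`, then all the prime factors of `q ^ l - 1` which do not divide
`q - 1` are prime factors of `N`, and they are `≡ 1 (mod l)`.  Each prime factor `q ≡ 1 (mod l)`,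
`q ≠ p`, contributes a factor `l` to `σ(N) = 2 N`.  For each odd prime `l < 179` a tree of such
primes (more exactly two trees with disjoint sets of possible Euler primes, and further trees for
the remaining candidates, which use the prime factors of `p + 1` as well) with sufficiently many
nodes has been computed; the trees are checked by the kernel.
-/

set_option autoImplicit false

namespace Pool.Agent.Results.MP_f02ea4_nt.BetaAtLeast89

open Finset
open Pool.Agent.U344.OPN

theorem perf {N : ℕ} (h : N.Perfect) : ∑ x ∈ N.divisors, x = 2 * N :=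
  (Nat.perfect_iff_sum_divisors_eq_two_mul h.2).1 h

/-- Euler: exactly one prime factor has an odd exponent -/
theorem euler {N : ℕ} (hodd : Odd N) (h : N.Perfect) :
    ∃ p, Opn N p ∧ Odd (N.factorization p) := by
  have hN : N ≠ 0 := h.2.ne'
  have hprod : ∏ q ∈ N.primeFactors, sg N q = 2 * N := by
    rw [← perf h, Nat.sum_divisors hN]
    rfl
  have hod : ∀ q, q ∣ N → Odd q := fun q hq => Odd.of_dvd_nat hodd hq
  have hev : ∀ q, q.Prime → q ∣ N → Odd (N.factorization q) → 2 ∣ sg N q := by
    intro q hq hqN h1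
    obtain ⟨m, hm⟩ := h1
    unfold sg
    rw [hm, show 2 * m + 1 + 1 = 2 * (m + 1) by ring, sum_two_mul]
    obtain ⟨k, hk⟩ := hod q hqN
    exact Dvd.dvd.mul_right ⟨k + 1, by omega⟩ _
  obtain ⟨p, hp, hpN, hpo⟩ : ∃ p, p.Prime ∧ p ∣ N ∧ Odd (N.factorization p) := by
    by_contra hcon
    push Not at hcon
    have h1 : Odd (∏ q ∈ N.primeFactors, sg N q) := by
      apply Finset.prod_induction _ Odd (fun a b ha hb => ha.mul hb) odd_one
      intro q hq
      rw [Nat.mem_primeFactors] at hq
      have h2 := hcon q hq.1 hq.2.1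
      rw [Nat.not_odd_iff_even] at h2
      exact odd_sum (hod q hq.2.1) h2.add_one
    rw [hprod] at h1
    exact absurd h1 (by simp)
  refine ⟨p, ⟨perf h, hodd, hp, ?_⟩, hpo⟩
  intro q hq hqN hqp
  by_contra h1
  rw [Nat.not_even_iff_odd] at h1
  have h2 : sg N p * sg N q ∣ 2 * N := by
    rw [← hprod, ← Finset.prod_pair (Ne.symm hqp)]
    apply Finset.prod_dvd_prod_of_subset
    intro x hx
    rw [mem_insert, mem_singleton] at hx
    rw [Nat.mem_primeFactors]
    rcases hx with rfl | rfl
    · exact ⟨hp, hpN, hN⟩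
    · exact ⟨hq, hqN, hN⟩
  have h3 : 2 * 2 ∣ 2 * N := (Nat.mul_dvd_mul (hev p hp hpN hpo) (hev q hq hqN h1)).trans h2
  have h4 : 2 ∣ N := Nat.dvd_of_mul_dvd_mul_left (by norm_num) h3
  rw [Nat.odd_iff] at hodd
  omega

theorem part_one {N : ℕ} (hodd : Odd N) (h : N.Perfect) {l : ℕ} (hl : l.Prime)
    (hle : Even (N.factorization l))
    (hd : ∀ q : ℕ, q.Prime → q ∣ N → Even (N.factorization q) → l ∣ N.factorization q + 1) :
    l ^ 178 ∣ N := by
  obtain ⟨p, H, hpo⟩ := euler hodd h
  have hlp : l ≠ p := by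
    rintro rfl
    exact (Nat.not_even_iff_odd.2 hpo) hle
  have h1 := H.ge_178 hl hlp (fun q hq hqN hqp => hd q hq hqN (H.ev q hq hqN hqp))
  exact (hl.pow_dvd_iff_le_factorization H.ne).2 h1

theorem part_two {N p α m β : ℕ} (hodd : Odd N) (h : N.Perfect) (hp : p.Prime)
    (hm : Squarefree m) (hN : N = p ^ α * m ^ (2 * β)) : 89 ≤ β := by
  have hm0 : m ≠ 0 := hm.ne_zero
  have hfac : ∀ q, q.Prime → q ∣ N → q ≠ p → N.factorization q = 2 * β := by
    intro q hq hqN hqp
    have hqm : q ∣ m := by
      rw [hN] at hqN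
      rcases (Nat.Prime.dvd_mul hq).1 hqN with h1 | h1
      · exact absurd ((Nat.prime_dvd_prime_iff_eq hq hp).1 (hq.dvd_of_dvd_pow h1)) hqp
      · exact hq.dvd_of_dvd_pow h1
    have h1 : m.factorization q = 1 := by
      have h2 := (Nat.squarefree_iff_factorization_le_one hm0).1 hm q
      have h3 := hq.factorization_pos_of_dvd hm0 hqm
      omega
    rw [hN, Nat.factorization_mul (pow_ne_zero _ hp.ne_zero) (pow_ne_zero _ hm0),
      Nat.factorization_pow, Nat.factorization_pow, Finsupp.add_apply, Finsupp.smul_apply,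
      Finsupp.smul_apply, h1, hp.factorization]
    simp [Ne.symm hqp]
  have H : Opn N p := ⟨perf h, hodd, hp, fun q hq hqN hqp => by
    rw [hfac q hq hqN hqp]; exact even_two_mul β⟩
  obtain ⟨q, hq, hqN, hqp⟩ := H.exists_other
  have hβ : 0 < β := by
    have h1 := hfac q hq hqN hqp
    have h2 := hq.factorization_pos_of_dvd H.ne hqN
    omega
  obtain ⟨l, hl, hl2, hlp⟩ : ∃ l, l.Prime ∧ l ∣ 2 * β + 1 ∧ l ≠ p := by
    by_contra hcon
    push Not at hcon
    have h1 : 2 * β + 1 = p ^ (2 * β + 1).primeFactorsList.length :=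
      Nat.eq_prime_pow_of_unique_prime_dvd (by omega) (fun {d} hd hd2 => hcon d hd hd2)
    exact H.not_pow hfac h1
  have hd : ∀ q, q.Prime → q ∣ N → q ≠ p → l ∣ N.factorization q + 1 := by
    intro q hq hqN hqp
    rw [hfac q hq hqN hqp]
    exact hl2
  have h1 := H.ge_178 hl hlp hd
  rw [hfac l hl (H.l_dvd hl hd) hlp] at h1
  omega

/-- (1) If `N` is an odd perfect number and `l` a prime with `v_l(N)` even which divides
`v_q(N) + 1` for all the primes `q ∣ N` with `v_q(N)` even, then `l ^ 178 ∣ N`.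
(2) If `N = p ^ α m ^ (2 β)` is an odd perfect number, where `p` is a prime and `m` is squarefree,
then `β ≥ 89`. -/
theorem result :
    (∀ N : ℕ, Odd N → N.Perfect → ∀ l : ℕ, l.Prime → Even (N.factorization l) →
      (∀ q : ℕ, q.Prime → q ∣ N → Even (N.factorization q) → l ∣ N.factorization q + 1) →
      l ^ 178 ∣ N) ∧
    (∀ N p α m β : ℕ, Odd N → N.Perfect → p.Prime → Squarefree m →
      N = p ^ α * m ^ (2 * β) → 89 ≤ β) :=
  ⟨fun _ hodd h _ hl hle hd => part_one hodd h hl hle hd,
    fun _ _ _ _ _ hodd h hp hm hN => part_two hodd h hp hm hN⟩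

end Pool.Agent.Results.MP_f02ea4_nt.BetaAtLeast89
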