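import Mathlib
import Pool.Agent.Results.MP_f02ea4_nt.CommonFactorExponents
import Pool.Agent.TH498.HF.TM2

set_option autoImplicit false

/-!
# Odd perfect numbers with few exceptional exponents

Let `n ≥ 3` be odd.  There is a constant `A = A(n)` with the following property.  Let `N` be an odd
perfect number and `P` a finite set of primes such that `n` divides `v_q(N) + 1` for every prime
factor `q` of `N` outside `P`, and such that the exponents in `N` of the primes dividing `n`, and of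
the primes outside `P` which are `1` modulo a prime factor of `n`, are at most `B`.  Then
`ω(N) ≤ #P + ω(n) B (B + 1) + A ^ (#P + 1)`.

For a prime `q ∣ N` outside `P` the number `D(q) = 1 + q + ⋯ + q ^ (n - 1)` divides `N`, so do the
products of these numbers, and all but a bounded number of them are composed of the primes in `P`
only.  So `(q, 1)` is a solution of the Thue-Mahler equation for the form
`y (x ^ (n - 1) + x ^ (n - 2) y + ⋯ + y ^ (n - 1))` of degree `n ≥ 3` and the primes in `P`; the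
number of its solutions is bounded in terms of `n` and `#P`.
-/

namespace Pool.Agent.Results.MP_f02ea4_nt.FewExceptionalExponents
open Finset Polynomial
open Pool.Agent.H298R3.Opn
open Pool.Agent.Results.MP_f02ea4_nt.CommonFactorExponents
open Pool.Agent.W4.VC (hom Sqf)

/-- the polynomial `1 + X + ⋯ + X ^ (n - 1)` -/
noncomputable def F (n : ℕ) : ℤ[X] := ∑ j ∈ range n, X ^ j

lemma F_mul (n : ℕ) : F n * (X - 1) = X ^ n - 1 := by
  unfold F
  exact geom_sum_mul X n

lemma F_ne {n : ℕ} (hn : 0 < n) : F n ≠ 0 := by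
  intro h
  have h1 := F_mul n
  rw [h, zero_mul] at h1
  have h2 : (X ^ n - 1 : ℤ[X]).natDegree = n := natDegree_X_pow_sub_C (r := (1 : ℤ))
  rw [← h1, natDegree_zero] at h2
  omega

lemma natDegree_F {n : ℕ} (hn : 0 < n) : (F n).natDegree + 1 = n := by
  have h1 := F_mul n
  have h2 : (X ^ n - 1 : ℤ[X]).natDegree = n := natDegree_X_pow_sub_C (r := (1 : ℤ))
  have h3 : (X - 1 : ℤ[X]).natDegree = 1 := natDegree_X_sub_C (1 : ℤ)
  have h4 : (X - 1 : ℤ[X]) ≠ 0 := X_sub_C_ne_zero (1 : ℤ)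
  rw [← h1, natDegree_mul (F_ne hn) h4, h3] at h2
  exact h2

lemma sqf_F {n : ℕ} (hn : 0 < n) : Sqf (F n) n := by
  refine ⟨?_, ?_, ?_⟩
  · have h1 : (X ^ n - 1 : ℚ[X]).Separable := by
      have : (X ^ n - C (1 : ℚ)).Separable :=
        separable_X_pow_sub_C (1 : ℚ) (by exact_mod_cast hn.ne') one_ne_zero
      simpa using this
    have h2 : (F n).map (Int.castRingHom ℚ) ∣ (X ^ n - 1 : ℚ[X]) := by
      refine ⟨X - 1, ?_⟩
      have h3 := congrArg (Polynomial.map (Int.castRingHom ℚ)) (F_mul n)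
      simp only [Polynomial.map_mul, Polynomial.map_sub, Polynomial.map_X, Polynomial.map_one,
        Polynomial.map_pow] at h3
      exact h3.symm
    exact h1.squarefree.squarefree_of_dvd h2
  · have := natDegree_F hn
    omega
  · have := natDegree_F hn
    omega

lemma hom_F {n : ℕ} (hn : 0 < n) (q : ℕ) : hom (F n) n (q : ℤ) 1 = ((D n q : ℕ) : ℤ) := by
  have h1 : (F n).natDegree < n + 1 := by
    have := natDegree_F hn
    omega
  have h2 : hom (F n) n (q : ℤ) 1 = (F n).eval (q : ℤ) := by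
    rw [eval_eq_sum_range' h1]
    unfold Pool.Agent.W4.VC.hom
    refine Finset.sum_congr rfl (fun j _ => ?_)
    rw [one_pow, mul_one]
  rw [h2]
  unfold F D
  rw [eval_finsetSum]
  push_cast
  refine Finset.sum_congr rfl (fun j _ => ?_)
  rw [eval_pow, eval_X]

/-- the bound for the number of prime factors -/
theorem omega_bound (n : ℕ) (hn : Odd n) (hn3 : 3 ≤ n) : ∃ A : ℕ, 1 ≤ A ∧
    ∀ (N B : ℕ) (P : Finset ℕ), Odd N → N.Perfect →
      (∀ q ∈ N.primeFactors, q ∉ P → n ∣ N.factorization q + 1) →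
      (∀ q ∈ N.primeFactors, (q ∣ n ∨ (q ∉ P ∧ ∃ l ∈ n.primeFactors, q ≡ 1 [MOD l])) →
        N.factorization q ≤ B) →
      N.primeFactors.card ≤ P.card + n.primeFactors.card * B * (B + 1) + A ^ (P.card + 1) := by
  classical
  obtain ⟨A, hA1, hA⟩ := Pool.Agent.TH498.HF.TM (F n) n (sqf_F (by omega)) hn3 1 le_rfl
  refine ⟨A, hA1, ?_⟩
  intro N B P hodd hperf h1 h2
  have hperf' : ∑ d ∈ N.divisors, d = 2 * N :=
    (Nat.perfect_iff_sum_divisors_eq_two_mul hperf.2).1 hperf
  obtain ⟨R, hRQ, hRP, hcard⟩ := count (P := P) (U := ∅) (B := B) hodd hperf' hn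
    (fun q hq hqP _ => h1 q hq hqP) (by
      intro q hq hbad
      refine h2 q hq ?_
      rcases hbad with h | ⟨h, h' | h'⟩
      · exact Or.inl h
      · exact absurd h' (Finset.notMem_empty _)
      · exact Or.inr ⟨h, h'⟩)
  have h3 : R.card ≤ A ^ (P.card + 1) := by
    have h4 := hA P (R.image (fun q : ℕ => ((q : ℤ), (1 : ℤ)))) (by
      intro x hx
      obtain ⟨q, hq, rfl⟩ := Finset.mem_image.1 hx
      refine ⟨isCoprime_one_right, ?_, ?_⟩
      · rw [hom_F (by omega)]
        exact_mod_cast (D_pos (by omega)).ne'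
      · intro p hp hpd
        rw [hom_F (by omega), Int.natAbs_natCast] at hpd
        exact Or.inl (hRP q hq p (Nat.mem_primeFactors.2 ⟨hp, hpd, (D_pos (by omega)).ne'⟩)))
    rwa [Finset.card_image_of_injective _ (by
      intro a b hab
      have h5 : ((a : ℤ), (1 : ℤ)) = ((b : ℤ), (1 : ℤ)) := hab
      exact Int.natCast_inj.1 (Prod.ext_iff.1 h5).1)] at h4
  rw [Finset.card_empty] at hcard
  calc N.primeFactors.card ≤ _ := hcard
    _ ≤ P.card + 0 + B * (0 + n.primeFactors.card * (B + 1)) + A ^ (P.card + 1) :=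
        Nat.add_le_add_left h3 _
    _ = _ := by ring

/-- the numerical part -/
lemma num_bound (E A : ℕ) : ∃ c : ℕ, ∀ k w : ℕ,
    w ≤ k + 1 * E * (E + 1) + A ^ (k + 1) →
    (2 * w) ^ (4 ^ w) ≤ 2 ^ (2 ^ (2 ^ (c * (k + 1)))) := by
  refine ⟨A + E * (E + 1) + 4, ?_⟩
  intro k w hw
  set e := E * (E + 1) with he
  have hk : k + 1 ≤ 2 ^ (k + 1) := (Nat.lt_two_pow_self).le
  have hE : e + 1 ≤ 2 ^ e := Nat.lt_two_pow_self
  have hAp : A ^ (k + 1) ≤ 2 ^ (A * (k + 1)) := by
    rw [pow_mul]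
    exact Nat.pow_le_pow_left (Nat.lt_two_pow_self).le _
  set x := w + 1 with hx
  have h1 : x ≤ 2 ^ ((A + e + 2) * (k + 1)) := by
    have e1 : x ≤ (k + 1) + e + 2 ^ (A * (k + 1)) := by
      have : 1 * E * (E + 1) = e := by rw [he, one_mul]
      omega
    have e2 : (k + 1) + e + 2 ^ (A * (k + 1)) ≤
        ((e + 1) * (k + 1)) * (2 * 2 ^ (A * (k + 1))) := by
      have f1 : 1 ≤ 2 ^ (A * (k + 1)) := Nat.one_le_two_pow
      set z := 2 ^ (A * (k + 1)) with hz
      have g1 : (e + 1) * (k + 1) = e * k + e + k + 1 := by ring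
      have g2 : e + k + 1 ≤ (e + 1) * (k + 1) := by rw [g1]; omega
      have g3 : 1 ≤ (e + 1) * (k + 1) := by omega
      have g4 : e + k + 1 ≤ (e + 1) * (k + 1) * z := g2.trans (Nat.le_mul_of_pos_right _ f1)
      have g5 : z ≤ (e + 1) * (k + 1) * z := Nat.le_mul_of_pos_left _ g3
      have g6 : ((e + 1) * (k + 1)) * (2 * z) = (e + 1) * (k + 1) * z + (e + 1) * (k + 1) * z := by
        ring
      omega
    refine e1.trans (e2.trans ?_)
    have e3 : 2 ^ (e + (k + 1) + (1 + A * (k + 1))) =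
        (2 ^ e * 2 ^ (k + 1)) * (2 * 2 ^ (A * (k + 1))) := by
      rw [pow_add 2 (e + (k + 1)), pow_add 2 e (k + 1), pow_add 2 1, pow_one]
    have e4 : ((e + 1) * (k + 1)) * (2 * 2 ^ (A * (k + 1))) ≤
        (2 ^ e * 2 ^ (k + 1)) * (2 * 2 ^ (A * (k + 1))) :=
      Nat.mul_le_mul_right _ (Nat.mul_le_mul hE hk)
    refine (e4.trans e3.symm.le).trans (Nat.pow_le_pow_right (by norm_num) ?_)
    have g2 : e ≤ e * (k + 1) := Nat.le_mul_of_pos_right _ (by omega)
    have g3 : (A + e + 2) * (k + 1) = A * (k + 1) + e * (k + 1) + 2 * (k + 1) := by ring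
    omega
  have h2 : (2 * w) ^ (4 ^ w) ≤ 2 ^ (2 ^ (3 * x)) := by
    have e1 : 2 * w ≤ 2 ^ x := by
      rw [hx, pow_succ]
      have := (Nat.lt_two_pow_self (n := w)).le
      omega
    calc (2 * w) ^ (4 ^ w) ≤ (2 ^ x) ^ (4 ^ w) := Nat.pow_le_pow_left e1 _
      _ ≤ (2 ^ x) ^ (4 ^ x) :=
        Nat.pow_le_pow_right (by positivity) (Nat.pow_le_pow_right (by norm_num) (by omega))
      _ = 2 ^ (x * 4 ^ x) := (pow_mul 2 x _).symm
      _ ≤ 2 ^ (2 ^ x * 4 ^ x) := Nat.pow_le_pow_right (by norm_num)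
        (Nat.mul_le_mul_right _ (Nat.lt_two_pow_self).le)
      _ = _ := by
        rw [← mul_pow, show 2 * 4 = 2 ^ 3 by norm_num, ← pow_mul]
  refine h2.trans (Nat.pow_le_pow_right (by norm_num) (Nat.pow_le_pow_right (by norm_num) ?_))
  calc 3 * x ≤ 2 ^ 2 * 2 ^ ((A + e + 2) * (k + 1)) := Nat.mul_le_mul (by norm_num) h1
    _ = 2 ^ (2 + (A + e + 2) * (k + 1)) := (pow_add _ _ _).symm
    _ ≤ _ := by
      refine Nat.pow_le_pow_right (by norm_num) ?_
      have g3 : (A + e + 4) * (k + 1) = (A + e + 2) * (k + 1) + 2 * (k + 1) := by ring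
      omega

/-- **Main theorem.**

(1) For every odd `n ≥ 3` there is a constant `A` such that for every odd perfect number `N`, every
`B` and every finite set `P` with the properties

* `n ∣ v_q(N) + 1` for every prime factor `q` of `N` outside `P`,
* `v_q(N) ≤ B` for every prime factor `q` of `N` which divides `n`, or which is not in `P` and is `1`
  modulo a prime factor of `n`,

the number of prime factors satisfies `ω(N) ≤ #P + ω(n) B (B + 1) + A ^ (#P + 1)`.

(2) For all `β ≥ 1` and `B` there is a constant `c` such that every odd perfect number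
`N = M m ^ (2 β)` with `m` squarefree and prime to `M`, such that `l ^ (B + 1) ∤ N` for at least one
prime factor `l` of `2 β + 1`, satisfies `N ≤ 2 ^ (2 ^ (2 ^ (c (ω(M) + 1))))`.  So for given `β`,
`B` and `ω(M)` there are only finitely many such `N`. -/
theorem result :
    (∀ n : ℕ, Odd n → 3 ≤ n → ∃ A : ℕ, ∀ (N B : ℕ) (P : Finset ℕ), Odd N → N.Perfect →
      (∀ q ∈ N.primeFactors, q ∉ P → n ∣ N.factorization q + 1) →
      (∀ q ∈ N.primeFactors, (q ∣ n ∨ (q ∉ P ∧ ∃ l ∈ n.primeFactors, q ≡ 1 [MOD l])) →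
        N.factorization q ≤ B) →
      N.primeFactors.card ≤ P.card + n.primeFactors.card * B * (B + 1) + A ^ (P.card + 1)) ∧
    (∀ β B : ℕ, 1 ≤ β → ∃ c : ℕ, ∀ N M m : ℕ, Odd N → N.Perfect → N = M * m ^ (2 * β) →
      Squarefree m → M.Coprime m → (∃ l : ℕ, l.Prime ∧ l ∣ 2 * β + 1 ∧ ¬ l ^ (B + 1) ∣ N) →
      N ≤ 2 ^ (2 ^ (2 ^ (c * (M.primeFactors.card + 1))))) := by
  refine ⟨fun n hn hn3 => ?_, ?_⟩
  · obtain ⟨A, -, hA⟩ := omega_bound n hn hn3
    exact ⟨A, hA⟩
  intro β B hβ
  classical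
  -- the constants for the prime factors `l` of `2 β + 1`
  have hl : ∀ l : ℕ, ∃ A : ℕ, l.Prime → l ∣ 2 * β + 1 → 1 ≤ A ∧
      ∀ (N B : ℕ) (P : Finset ℕ), Odd N → N.Perfect →
      (∀ q ∈ N.primeFactors, q ∉ P → l ∣ N.factorization q + 1) →
      (∀ q ∈ N.primeFactors, (q ∣ l ∨ (q ∉ P ∧ ∃ l' ∈ l.primeFactors, q ≡ 1 [MOD l'])) →
        N.factorization q ≤ B) →
      N.primeFactors.card ≤ P.card + l.primeFactors.card * B * (B + 1) + A ^ (P.card + 1) := by
    intro l
    by_cases h : l.Prime ∧ l ∣ 2 * β + 1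
    · obtain ⟨h1, h2⟩ := h
      have hlo : Odd l := (show Odd (2 * β + 1) from ⟨β, rfl⟩).of_dvd_nat h2
      have hl3 : 3 ≤ l := by
        have := h1.two_le
        obtain ⟨c, hc⟩ := hlo
        omega
      obtain ⟨A, hA⟩ := omega_bound l hlo hl3
      exact ⟨A, fun _ _ => hA⟩
    · exact ⟨0, fun h1 h2 => absurd ⟨h1, h2⟩ h⟩
  choose A hA using hl
  set A0 : ℕ := 1 + ∑ l ∈ (2 * β + 1).primeFactors, A l with hA0
  set E : ℕ := max B (2 * β) with hE
  obtain ⟨c, hc⟩ := num_bound E A0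
  refine ⟨c, ?_⟩
  rintro N M m hodd hperf hN hm hMm ⟨l, hlp, hld, hlB⟩
  have hperf' : ∑ d ∈ N.divisors, d = 2 * N :=
    (Nat.perfect_iff_sum_divisors_eq_two_mul hperf.2).1 hperf
  have hN0 : N ≠ 0 := hperf.2.ne'
  have hM0 : M ≠ 0 := by rintro rfl; rw [zero_mul] at hN; exact hN0 hN
  have hm0 : m ≠ 0 := by rintro rfl; exact not_squarefree_zero hm
  have hlmem : l ∈ (2 * β + 1).primeFactors := Nat.mem_primeFactors.2 ⟨hlp, hld, by omega⟩
  -- exponents
  have hfac : ∀ q ∈ N.primeFactors, q ∉ M.primeFactors → N.factorization q = 2 * β := by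
    intro q hq hqM
    have hqp := Nat.prime_of_mem_primeFactors hq
    have hqM' : ¬ q ∣ M := fun h => hqM (Nat.mem_primeFactors.2 ⟨hqp, h, hM0⟩)
    have hqd : q ∣ M * m ^ (2 * β) := hN ▸ Nat.dvd_of_mem_primeFactors hq
    have hqm : q ∣ m := by
      rcases hqp.dvd_mul.1 hqd with h | h
      · exact absurd h hqM'
      · exact hqp.dvd_of_dvd_pow h
    rw [hN, Nat.factorization_mul hM0 (pow_ne_zero _ hm0), Finsupp.add_apply,
      Nat.factorization_eq_zero_of_not_dvd hqM', zero_add, Nat.factorization_pow,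
      Finsupp.smul_apply, smul_eq_mul]
    have h1 : m.factorization q = 1 := by
      have h2 := (Nat.squarefree_iff_factorization_le_one hm0).1 hm q
      have h3 := hqp.factorization_pos_of_dvd hm0 hqm
      omega
    rw [h1, mul_one]
  have hb := (hA l hlp hld).2 N E M.primeFactors hodd hperf
    (fun q hq hqM => by rw [hfac q hq hqM]; exact hld) (by
      intro q hq hbad
      rcases hbad with h | ⟨h, -⟩
      · have hql : q = l := (Nat.prime_dvd_prime_iff_eq (Nat.prime_of_mem_primeFactors hq) hlp).1 h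
        subst hql
        have h1 : N.factorization q ≤ B := by
          by_contra hcon
          push Not at hcon
          exact hlB ((hlp.pow_dvd_iff_le_factorization hN0).2 (by omega))
        exact h1.trans (le_max_left _ _)
      · rw [hfac q hq h]
        exact le_max_right _ _)
  have hl1 : l.primeFactors.card = 1 := by
    rw [hlp.primeFactors, Finset.card_singleton]
  have hAl : A l ≤ A0 :=
    (Finset.single_le_sum (f := A) (fun _ _ => Nat.zero_le _) hlmem).trans (Nat.le_add_left _ _)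
  have h3 := opn_bound N hodd hperf'
  refine h3.le.trans (hc _ _ ?_)
  rw [hl1] at hb
  exact hb.trans (Nat.add_le_add_left (Nat.pow_le_pow_left hAl _) _)

end Pool.Agent.Results.MP_f02ea4_nt.FewExceptionalExponents
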