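import Mathlib
import Pool.Agent.U458.OPN.Asm2

set_option autoImplicit false

/-!
# The large components of an odd perfect number

Let `N` be an odd perfect number, and call the prime powers `p ^ e ∥ N` its components.  All
exponents `e` are even, but one (Euler).  There is a constant `c > 0` such that:

* some component with an even exponent is at least `c (log N log log N) ^ 4`;
* for `J ≤ c log log N` there are `J` components with an even exponent which are at least
  `c (4 ^ (-J) log N log log N) ^ 2`;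
* and there are `J` components with an even exponent which are at least
  `c (4 ^ (-J) log N log log N) ^ 4`, unless the component of the prime `3` is that large.
-/

namespace Pool.Agent.Results.MP_f02ea4_nt.LargeComponents
open Finset
open Pool.Agent.U458.OPN

/-- the mass of the components up to `y ^ 2` -/
theorem mass_two : ∃ C : ℝ, 0 < C ∧ ∀ N : ℕ, Odd N → N.Perfect → ∀ y : ℕ, 3 ≤ y →
    ∀ F : Finset ℕ,
    (∀ p ∈ N.primeFactors \ F, Even (N.factorization p) ∧ p ^ N.factorization p ≤ y ^ 2) →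
    ((N.primeFactors \ F).card : ℝ) ≤ C * (y / Real.log y) ∧
    ∑ p ∈ N.primeFactors \ F, (N.factorization p : ℝ) * Real.log p ≤ C * (y / Real.log y) := by
  obtain ⟨C₀, hC₀, h⟩ := small_card
  refine ⟨2 * C₀, by positivity, fun N hodd hperf y hy F hG => ?_⟩
  have hyr : (3 : ℝ) ≤ y := by exact_mod_cast hy
  have hL : 1 ≤ Real.log (y : ℝ) := by
    rw [Real.le_log_iff_exp_le (by linarith)]
    have := Real.exp_one_lt_d9
    linarith
  have h1 := h N hodd hperf y (by omega) (N.primeFactors \ F) sdiff_subset (by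
    intro p hp
    obtain ⟨h2, h3⟩ := hG p hp
    have hpS := (mem_sdiff.1 hp).1
    have h4 := one_le_exp hperf.2.ne' hpS
    have h5 := three_le hodd hpS
    refine ⟨h2, h3.trans (Nat.pow_le_pow_right (by omega) (by norm_num)), ?_⟩
    have h6 : 2 ≤ N.factorization p := by
      obtain ⟨k, hk⟩ := h2
      omega
    have h7 : p ^ 2 ≤ y ^ 2 := (Nat.pow_le_pow_right (by omega) h6).trans h3
    exact (Nat.pow_le_pow_iff_left (by norm_num)).1 h7)
  set L := Real.log (y : ℝ) with hLd
  have hL0 : 0 < L := by linarith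
  have h2 : (y : ℝ) / L ^ 2 * L = y / L := by field_simp
  have h20 : 0 ≤ (y : ℝ) / L ^ 2 := by positivity
  have h3 : (y : ℝ) / L ^ 2 ≤ y / L := by
    rw [← h2]
    nlinarith
  have h30 : 0 ≤ (y : ℝ) / L := by positivity
  refine ⟨h1.trans ?_, ?_⟩
  · calc C₀ * (y / L ^ 2) ≤ C₀ * (y / L) := mul_le_mul_of_nonneg_left h3 hC₀.le
      _ ≤ _ := by nlinarith
  · have h4 : ∀ p ∈ N.primeFactors \ F, (N.factorization p : ℝ) * Real.log p ≤ 2 * L := by
      intro p hp
      have h5 : (p : ℝ) ^ N.factorization p ≤ (y : ℝ) ^ 2 := by exact_mod_cast (hG p hp).2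
      have h6 : (0 : ℝ) < p := by
        have := three_le hodd (mem_sdiff.1 hp).1
        positivity
      have h7 := Real.log_le_log (by positivity) h5
      rw [Real.log_pow, Real.log_pow] at h7
      exact_mod_cast h7
    calc ∑ p ∈ N.primeFactors \ F, (N.factorization p : ℝ) * Real.log p
        ≤ ∑ p ∈ N.primeFactors \ F, 2 * L := Finset.sum_le_sum h4
      _ = (N.primeFactors \ F).card * (2 * L) := by rw [Finset.sum_const, nsmul_eq_mul]
      _ ≤ (C₀ * (y / L ^ 2)) * (2 * L) := mul_le_mul_of_nonneg_right h1 (by positivity)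
      _ = 2 * C₀ * ((y : ℝ) / L ^ 2 * L) := by ring
      _ = _ := by rw [h2]

/-- **Main theorem.** -/
theorem result : ∃ c : ℝ, 0 < c ∧ ∀ N : ℕ, Odd N → N.Perfect →
    (∃ p ∈ N.primeFactors, Even (N.factorization p) ∧
      c * (Real.log N * Real.log (Real.log N)) ^ 4 ≤ (p : ℝ) ^ N.factorization p) ∧
    ∀ J : ℕ, 1 ≤ J → (J : ℝ) ≤ c * Real.log (Real.log N) →
      J ≤ (N.primeFactors.filter (fun p => Even (N.factorization p) ∧
        c * (Real.log N * Real.log (Real.log N) / 4 ^ J) ^ 2 ≤
          (p : ℝ) ^ N.factorization p)).card ∧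
      (c * (Real.log N * Real.log (Real.log N) / 4 ^ J) ^ 4 ≤ (3 : ℝ) ^ N.factorization 3 ∨
        J ≤ (N.primeFactors.filter (fun p => Even (N.factorization p) ∧
          c * (Real.log N * Real.log (Real.log N) / 4 ^ J) ^ 4 ≤
            (p : ℝ) ^ N.factorization p)).card) := by
  classical
  obtain ⟨C₂, hC₂, hM2⟩ := mass_two
  obtain ⟨c₂, hc₂, h2⟩ := assemble 2 (by norm_num) (fun _ => True) 1 C₂ one_pos hC₂ 3
    (fun N hodd hperf y hy F _ _ _ hG => hM2 N hodd hperf y hy F hG)
  obtain ⟨c₁, hc₁, C, hC, hM⟩ := mass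
  obtain ⟨c₄, hc₄, h4⟩ := assemble 4 (by norm_num) (fun F => 3 ∉ F) c₁ C hc₁ hC 256 (by
    intro N hodd hperf y hy F hF h3 hFc hG
    obtain ⟨h5, h6⟩ := hM N hodd hperf y hy F hF h3 hFc hG
    refine ⟨h5.trans (mul_le_mul_of_nonneg_left ?_ hC.le), h6⟩
    have hyr : (256 : ℝ) ≤ y := by exact_mod_cast hy
    have hL : 1 ≤ Real.log (y : ℝ) := by
      rw [Real.le_log_iff_exp_le (by linarith)]
      have := Real.exp_one_lt_d9
      linarith
    apply div_le_div_of_nonneg_left (by linarith) (by linarith)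
    nlinarith)
  set c₀ := min c₂ c₄ with hc₀
  have hc₀0 : 0 < c₀ := by positivity
  -- the statement on `J` components, for every small constant
  have hJ4 : ∀ c : ℝ, 0 < c → c ≤ c₀ → ∀ N : ℕ, Odd N → N.Perfect → ∀ J : ℕ, 1 ≤ J →
      (J : ℝ) ≤ c * Real.log (Real.log N) →
      (c * (Real.log N * Real.log (Real.log N) / 4 ^ J) ^ 4 ≤ (3 : ℝ) ^ N.factorization 3 ∨
        J ≤ (N.primeFactors.filter (fun p => Even (N.factorization p) ∧
          c * (Real.log N * Real.log (Real.log N) / 4 ^ J) ^ 4 ≤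
            (p : ℝ) ^ N.factorization p)).card) := by
    intro c hc hcc N hodd hperf J hJ hJc
    by_cases h3 : c * (Real.log N * Real.log (Real.log N) / 4 ^ J) ^ 4 ≤
        (3 : ℝ) ^ N.factorization 3
    · exact Or.inl h3
    · refine Or.inr (h4 c hc (hcc.trans (min_le_right _ _)) N hodd hperf J hJ hJc ?_)
      intro hmem
      obtain ⟨-, h5⟩ := mem_filter.1 hmem
      rcases h5 with h5 | h5
      · exact absurd (even_three hodd hperf) (Nat.not_even_iff_odd.2 h5)
      · exact h3 (by exact_mod_cast h5)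
  -- the constant
  set c' : ℝ := min (c₀ / 256) (1 / (Real.exp (1 / c₀) * (1 / c₀)) ^ 4) with hc'
  have hc'0 : 0 < c' := by positivity
  have hc'c : c' ≤ c₀ := by
    have : c' ≤ c₀ / 256 := min_le_left _ _
    linarith
  refine ⟨c', hc'0, fun N hodd hperf => ⟨?_, fun J hJ hJc => ⟨?_, ?_⟩⟩⟩
  · have hN3 : 3 ≤ N := by
      obtain ⟨p, hp, -⟩ := exists_even hodd hperf
      exact (three_le hodd hp).trans (Nat.le_of_dvd hperf.2 (Nat.dvd_of_mem_primeFactors hp))
    have hNr : (3 : ℝ) ≤ N := by exact_mod_cast hN3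
    have hL1 : 1 ≤ Real.log N := by
      rw [Real.le_log_iff_exp_le (by linarith)]
      have := Real.exp_one_lt_d9
      linarith
    have hL2 : 0 ≤ Real.log (Real.log N) := Real.log_nonneg hL1
    by_cases hbig : ((1 : ℕ) : ℝ) ≤ c₀ * Real.log (Real.log N)
    · have hTle : c' * (Real.log N * Real.log (Real.log N)) ^ 4 ≤
          c₀ * (Real.log N * Real.log (Real.log N) / 4 ^ 1) ^ 4 := by
        have h5 : c' ≤ c₀ / 256 := min_le_left _ _
        calc c' * (Real.log N * Real.log (Real.log N)) ^ 4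
            ≤ c₀ / 256 * (Real.log N * Real.log (Real.log N)) ^ 4 :=
              mul_le_mul_of_nonneg_right h5 (by positivity)
          _ = _ := by ring
      by_cases hT1 : c₀ * (Real.log N * Real.log (Real.log N) / 4 ^ 1) ^ 4 ≤ 1
      · obtain ⟨p, hp, hpe⟩ := exists_even hodd hperf
        refine ⟨p, hp, hpe, (hTle.trans hT1).trans (one_le_pow₀ ?_)⟩
        exact_mod_cast (by have := three_le hodd hp; omega : 1 ≤ p)
      · rcases hJ4 c₀ hc₀0 le_rfl N hodd hperf 1 le_rfl hbig with h5 | h5
        · refine ⟨3, ?_, even_three hodd hperf, hTle.trans (by exact_mod_cast h5)⟩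
          rw [← Nat.support_factorization, Finsupp.mem_support_iff]
          intro h6
          rw [h6, pow_zero] at h5
          exact hT1 h5
        · obtain ⟨p, hp⟩ := Finset.card_pos.1 h5
          obtain ⟨h6, h7, h8⟩ := mem_filter.1 hp
          exact ⟨p, h6, h7, hTle.trans h8⟩
    · push Not at hbig
      obtain ⟨p, hp, hpe⟩ := exists_even hodd hperf
      refine ⟨p, hp, hpe, le_trans ?_ (one_le_pow₀
        (by exact_mod_cast (by have := three_le hodd hp; omega : 1 ≤ p)))⟩
      have h5 : Real.log (Real.log N) ≤ 1 / c₀ := by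
        rw [le_div_iff₀ hc₀0]
        push_cast at hbig
        linarith
      have h6 : Real.log N ≤ Real.exp (1 / c₀) := (Real.log_le_iff_le_exp (by linarith)).1 h5
      have h7 : c' ≤ 1 / (Real.exp (1 / c₀) * (1 / c₀)) ^ 4 := min_le_right _ _
      calc c' * (Real.log N * Real.log (Real.log N)) ^ 4
          ≤ 1 / (Real.exp (1 / c₀) * (1 / c₀)) ^ 4 * (Real.exp (1 / c₀) * (1 / c₀)) ^ 4 := by
            apply mul_le_mul h7 _ (by positivity) (by positivity)
            exact pow_le_pow_left₀ (by positivity) (mul_le_mul h6 h5 hL2 (by positivity)) 4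
        _ = 1 := by field_simp
  · exact h2 c' hc'0 (hc'c.trans (min_le_left _ _)) N hodd hperf J hJ hJc trivial
  · exact hJ4 c' hc'0 hc'c N hodd hperf J hJ hJc

end Pool.Agent.Results.MP_f02ea4_nt.LargeComponents
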