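import Pool.Agent.U209.OPN.E

set_option autoImplicit false

namespace Pool.Agent.Results.MP_f02ea4_nt.ThreeLargestPrimes

/-- Let `N` be an odd perfect number and let `a`, `b`, `c` be three distinct prime divisors of
`N`.  Then `(a b c) ^ 2 ≤ 2304 N`, that is, `a b c ≤ 48 √N`.  In particular the product of the
three largest prime divisors of an odd perfect number `N` is at most `48 √N`. -/
theorem result (N : ℕ) (hodd : Odd N) (hperf : Nat.Perfect N) (a b c : ℕ)
    (ha : a.Prime) (hb : b.Prime) (hc : c.Prime) (hab : a ≠ b) (hac : a ≠ c) (hbc : b ≠ c)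
    (haN : a ∣ N) (hbN : b ∣ N) (hcN : c ∣ N) : (a * b * c) ^ 2 ≤ 2304 * N := by
  have hN0 : N ≠ 0 := hperf.2.ne'
  exact Pool.Agent.U209.OPN.three hodd hperf (Nat.mem_primeFactors.2 ⟨ha, haN, hN0⟩)
    (Nat.mem_primeFactors.2 ⟨hb, hbN, hN0⟩) (Nat.mem_primeFactors.2 ⟨hc, hcN, hN0⟩) hab hac hbc

end Pool.Agent.Results.MP_f02ea4_nt.ThreeLargestPrimes
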